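import Pool.Agent.Lib.MP_74d0c9_nt.YMain
import Pool.Agent.Lib.MP_74d0c9_nt.YActI

/-!
# Multiplicities at the irreducible points of the images of the Kisin modules of given shape
-/

set_option autoImplicit false

namespace Pool.Agent.Results.MP_74d0c9_nt.ExactMultiplicity

open Pool.Agent.Lib.MP_74d0c9_nt IsLocalRing Filter Topology

universe u

/-- Let `p ≥ 5`, let `a : ZMod f → ℕ`, `1 ≤ a t ≤ p`, be a shape, and let `k` be a field.

1. Let `M` be a Kisin module of shape `a` over `k` whose étale `φ`-module `M.frob a` is absolutely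
irreducible. A word of `M` is a position `i` and a length `m`, `2 ≤ m < f`, such that the entries of
`a` at `i, i + 1, …, i + m - 1` are `1, p - 1, …, p - 1, p`; it is active if the constant matrices
`Y_t = Z_(t+1) X_t(0)` satisfy `Y_i(1,1) = 0` and `Y_(i+s)(1,0) = 0` for `0 < s < m - 1` (rows and
columns numbered `0, 1`). The active words of `M` are finitely many, pairwise disjoint words at
positions `i 0, …, i (r - 1)`, of lengths `m 0, …, m (r - 1)`, which do not cover the cycle. They
depend only on the étale `φ`-module: if `M'` is another Kisin module of shape `a` and the étale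
`φ`-modules of `M` and `M'` are isomorphic, then `M` and `M'` have the same active words.

2. Let `B` be an absolutely irreducible étale `φ`-module over `k` which is isomorphic to the étale
`φ`-module of a Kisin module `M` of shape `a`, with active words of lengths `m 0, …, m (r - 1)`
(`r = 0` is allowed). Then there are a local Noetherian domain `R₀` over `k` with residue field `k`
and maximal ideal `𝔪₀`, and a formal family `𝓕₀` of deformations of `B` over `R₀` (compatible
deformations over the quotients `R₀ / 𝔪₀ ^ n`), such that (this is `IsImage`)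

* two homomorphisms `R₀ / 𝔪₀ ^ n → A` which induce equivalent deformations of `B` are equal, and
* every deformation of `B` over `A` which is isomorphic to a Kisin module of shape `a` is equivalent
  to one which is induced by a homomorphism `R₀ / 𝔪₀ ^ n → A`,

for all finite-dimensional local `k`-algebras `A` with residue field `k`; and `𝓕₀` is the smallest
such family: if `R` is a local `k`-algebra with residue field `k` and maximal ideal `𝔪`, with a
family with these two properties, then for all `n ≥ 1` there are an `N` and a surjective homomorphism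
`R / 𝔪 ^ N → R₀ / 𝔪₀ ^ n` which induces the family over `R₀ / 𝔪₀ ^ n`, up to equivalence. (So the
completion of `R₀` is the complete local ring at `B` of the scheme-theoretic image of the Kisin
modules of shape `a`.) Moreover

`dim (R₀ / 𝔪₀ ^ n) = ∑_S ∏_(j ∈ S) 2 (m j - 1) * C(n + f - r, f + 1 - r + #S)` for all `n`,

where `S` runs through the subsets of `{0, …, r - 1}`, and the multiplicity
`lim (f + 1)! dim (R₀ / 𝔪₀ ^ n) / n ^ (f + 1)` of `R₀` is `∏ 2 (m j - 1)`; it is one if and only if
there is no active word.

3. Every family of pairwise disjoint words of the shape `a` which do not cover the cycle is the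
family of the active words of a Kisin module of shape `a` over `k` with an absolutely irreducible
étale `φ`-module.

4. For all `m 0, …, m (r - 1) ≥ 2` with sum less than `f` there are shapes with disjoint words of
these lengths. -/
theorem result (p : ℕ) [Fact p.Prime] (hp : 5 ≤ p) (f : ℕ) [NeZero f] :
    (∀ a : ZMod f → ℕ, (∀ t, 1 ≤ a t ∧ a t ≤ p) → ∀ (k : Type u) [Field k],
      (∀ M : KisinModule f k, AbsIrred p (M.frob a) →
        (∃ (r : ℕ) (i : Fin r → ZMod f) (m : Fin r → ℕ), IsActiveWords p f a M i m) ∧
        ∀ (M' : KisinModule f k) (T : ZMod f → GL (Fin 2) (LaurentSeries k)),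
          IsHom p (M.frob a) (M'.frob a) (fun j => (T j).1) →
          ∀ (i : ZMod f) (m : ℕ), Active p f a M i m ↔ Active p f a M' i m) ∧
      (∀ (B : ZMod f → Matrix (Fin 2) (Fin 2) (LaurentSeries k)) (M : KisinModule f k)
        (T : ZMod f → GL (Fin 2) (LaurentSeries k)), AbsIrred p B →
        IsHom p (M.frob a) B (fun j => (T j).1) →
        ∀ (r : ℕ) (i : Fin r → ZMod f) (m : Fin r → ℕ), IsActiveWords p f a M i m →
        ∃ (R₀ : Type u) (_ : CommRing R₀) (_ : Algebra k R₀) (_ : IsLocalRing R₀)
          (𝓕₀ : Family B R₀), IsNoetherianRing R₀ ∧ IsDomain R₀ ∧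
          Function.Surjective (algebraMap k (ResidueField R₀)) ∧ 𝓕₀.IsImage p a ∧
          (∀ n : ℕ, Module.finrank k (R₀ ⧸ maximalIdeal R₀ ^ n) =
            ∑ S : Finset (Fin r), (∏ j ∈ S, 2 * (m j - 1)) *
              (n + f - r).choose (f + 1 - r + S.card)) ∧
          Tendsto (fun n : ℕ => ((f + 1).factorial : ℝ) *
            Module.finrank k (R₀ ⧸ maximalIdeal R₀ ^ n) / (n : ℝ) ^ (f + 1)) atTop
            (𝓝 ((∏ j, 2 * (m j - 1) : ℕ) : ℝ))) ∧
      ∀ (r : ℕ) (i : Fin r → ZMod f) (m : Fin r → ℕ), IsWords p f a i m →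
        ∃ M : KisinModule f k, AbsIrred p (M.frob a) ∧ IsActiveWords p f a M i m) ∧
    ∀ (r : ℕ) (m : Fin r → ℕ), (∀ j, 2 ≤ m j) → ∑ j, m j < f →
      ∃ (a : ZMod f → ℕ) (i : Fin r → ZMod f), (∀ t, 1 ≤ a t ∧ a t ≤ p) ∧ IsWords p f a i m := by
  refine ⟨fun a ha k _ => ⟨fun M hM => ?_, fun B M T hB hT r i m hA => ?_, fun r i m hW => ?_⟩,
    fun r m hm hs => exists_shape0 hp r m hm hs⟩
  · obtain ⟨r, i, m, hW, hact⟩ := exists_words hp M hM
    exact ⟨⟨r, i, m, hW, hact⟩, fun M' T hT i m => active_iso hp ha M M' hM T hT i m⟩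
  · obtain ⟨R₀, h1, h2, h3, 𝓕, h4, h5, h6, h7, h8, h9⟩ :=
      exists_imageY hp ha M (absIrred_of_hom T hT hB) i m hA.words hA.active
    obtain ⟨𝓕', h7'⟩ := exists_transfer (fun j => (T j)⁻¹) hT.inv 𝓕 h7
    exact ⟨R₀, h1, h2, h3, 𝓕', h4, h5, h6, h7', h8, h9⟩
  · obtain ⟨M, hM, hact⟩ := exists_modelA hp ha r i m hW k
    exact ⟨M, hM, hW, hact⟩

end Pool.Agent.Results.MP_74d0c9_nt.ExactMultiplicity
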