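import Pool.Agent.Lib.MP_74d0c9_nt.Tangent

/-!
# Kisin modules of an irreducible étale `φ`-module, shapes with entries from `1` to `p`
-/

set_option autoImplicit false

namespace Pool.Agent.Results.MP_74d0c9_nt.IrreducibleModels

open Pool.Agent.Lib.MP_74d0c9_nt

universe u

/-- Let `p ≥ 5` and `f ≥ 1`; a shape is `a : ZMod f → ℕ` with `1 ≤ a i ≤ p`.

* If `a` contains no word, then over every local ring `A` a Kisin module of shape `a` whose
residual étale `φ`-module is irreducible is determined by its étale `φ`-module: all morphisms are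
integral, and all isomorphisms come from matrices in `GL₂(A[[u]])`.
* If `a` contains a word of length `m`, then over every field `k`, `2 ≠ 0` in `k`, there is an
absolutely irreducible étale `φ`-module `B` with a family of different Kisin modules of shape `a`
indexed by `k`, and with `f + 2 m - 2` linearly independent first order deformations which come
from Kisin modules of shape `a` over `k[ε]`.
* If `f ≤ 2` there is no word; if `f ≥ 3` some shapes contain words. -/
theorem result (p : ℕ) [Fact p.Prime] (hp : 5 ≤ p) (f : ℕ) [NeZero f] :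
    (∀ a : ZMod f → ℕ, (∀ i, 1 ≤ a i ∧ a i ≤ p) → ¬ HasWord p f a →
      ∀ (A K : Type u) [CommRing A] [IsLocalRing A] [Field K] [IsAlgClosed K] (π : A →+* K)
        [IsLocalHom π] (M N : KisinModule f A), Irred p ((M.baseChange π).frob a) →
        (∀ G : ZMod f → Matrix (Fin 2) (Fin 2) (LaurentSeries A),
          IsHom p (M.frob a) (N.frob a) G → ∀ i, Integral (G i)) ∧
        ∀ G : ZMod f → GL (Fin 2) (LaurentSeries A),
          IsHom p (M.frob a) (N.frob a) (fun i => (G i).1) →
            ∀ i, ∃ g : GL (Fin 2) (PowerSeries A), (G i).1 = g.1.map ps) ∧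
    (∀ a : ZMod f → ℕ, (∀ i, 1 ≤ a i ∧ a i ≤ p) → ∀ (i : ZMod f) (m : ℕ), IsWord p f a i m →
      ∀ (k : Type u) [Field k], (2 : k) ≠ 0 →
        ∃ B : ZMod f → Matrix (Fin 2) (Fin 2) (LaurentSeries k),
          (∀ (K : Type u) [Field K] (ι : k →+* K), Irred p fun j => (B j).map (lmap ι)) ∧
          (∃ (M : k → KisinModule f k) (T : k → ZMod f → GL (Fin 2) (LaurentSeries k)),
            (∀ l, IsHom p ((M l).frob a) B fun j => (T l j).1) ∧
            ∀ l l', l ≠ l' → ∃ j, ¬ Integral ((T l j)⁻¹ * T l' j).1) ∧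
          ∃ (S : Type) (_ : Fintype S)
            (D : S → ZMod f → Matrix (Fin 2) (Fin 2) (LaurentSeries k)),
            Fintype.card S = f + 2 * m - 2 ∧
            (∀ s, ∃ (M : KisinModule f (DualNumber k))
              (T : ZMod f → GL (Fin 2) (LaurentSeries (DualNumber k))),
              IsHom p (M.frob a) (fun j => deform (B j) (D s j)) fun j => (T j).1) ∧
            ∀ (r : S → k) (C : ZMod f → Matrix (Fin 2) (Fin 2) (LaurentSeries k)),
              (∀ j, ∑ s, (HahnSeries.C (r s) : LaurentSeries k) • D s j =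
                C j * B j - B j * (C (j - 1)).map (phi k p)) → r = 0) ∧
    (f ≤ 2 → ∀ a : ZMod f → ℕ, ¬ HasWord p f a) ∧
    (3 ≤ f → ∃ a : ZMod f → ℕ, (∀ i, 1 ≤ a i ∧ a i ≤ p) ∧ HasWord p f a) := by
  refine ⟨?_, ?_, ?_, ?_⟩
  · intro a ha hw A K _ _ _ _ π _ M N hM
    exact ⟨fun G hG i => integral_of_not_hasWord π hp ha hw M N hM G hG i,
      fun G hG i => gx_of_not_hasWord π hp ha hw M N hM G hG i⟩
  · rintro a ha i m ⟨hm, hmf, h1, h2, h3⟩ k _ hk
    refine ⟨fun j => Bn p m f (a j) (j - i).val, ?_, ?_, Ix m f, inferInstance,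
      Dx k p m f a i, card_Ix hm hmf, ?_, ?_⟩
    · intro K _ ι
      have h4 : (fun j => (Bn p m f (a j) (j - i).val : Mat k).map (lmap ι)) =
          fun j => (Bn p m f (a j) (j - i).val : Mat K) := funext fun j => Bn_map ι p m f _ _
      have h5 := irred_B (k := K) hp ha hm hmf i
      rw [← h4] at h5
      exact h5
    · refine ⟨Mn m i, fun l j => Tn m l (j - i).val, fun l => isHom_Mn hm hmf i h1 h2 h3 l, ?_⟩
      intro l l' hl
      refine ⟨i, ?_⟩
      show ¬ Integral ((Tn m l (i - i).val)⁻¹ * Tn m l' (i - i).val).1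
      have e : ∀ l : k, Tn m l (i - i).val = tl l := by
        intro l
        unfold Tn
        rw [sub_self, ZMod.val_zero, if_pos (by omega)]
      rw [e, e]
      exact not_integral_tl hl
    · intro s
      exact exists_kisin hm hmf i h1 h2 h3 s
    · intro r C h
      exact indep_Dx hm hmf ha hk i r C h
  · rintro hf a ⟨i, m, hm, hmf, -⟩
    omega
  · intro hf
    have : Fact (1 < f) := ⟨by omega⟩
    refine ⟨fun i => if i = 0 then 1 else p, fun i => ?_, 0, 2, le_rfl, by omega, if_pos rfl, ?_,
      ?_⟩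
    · show 1 ≤ (if i = 0 then 1 else p) ∧ (if i = 0 then 1 else p) ≤ p
      split_ifs
      · omega
      · omega
    · intro s h1 h2
      omega
    · refine if_neg ?_
      rw [zero_add]
      norm_num

end Pool.Agent.Results.MP_74d0c9_nt.IrreducibleModels
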